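import Mathlib

/-!
# Bijections of the natural numbers with prescribed fibres
-/

set_option autoImplicit false

open Set

namespace Pool.Agent.N618.EE

/-- the fibres of `α` and `β` over `q` are both infinite, both singletons, or both empty -/
def Same {Q : Type} (α β : ℕ → Q) (q : Q) : Prop :=
  ({n | α n = q}.Infinite ∧ {n | β n = q}.Infinite) ∨
    ((∃! n, α n = q) ∧ ∃! n, β n = q) ∨ ((∀ n, α n ≠ q) ∧ ∀ n, β n ≠ q)

/-- A finite injection which respects the fibres extends to a bijection which respects the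
fibres. -/
theorem exists_bij {Q : Type} {α β : ℕ → Q} (hs : ∀ q, Same α β q) {h : ℕ → ℕ}
    (hinj : Function.Injective h) (hh : ∀ n, β (h n) = α n) {m : ℕ} (x : Fin m → ℕ) :
    ∃ F : ℕ ≃ ℕ, (∀ n, β (F n) = α n) ∧ ∀ k, F (x k) = h (x k) := by
  classical
  have hq : ∀ q, ∃ e : {n // α n = q} ≃ {n // β n = q}, ∀ k (hk : α (x k) = q),
      (e ⟨x k, hk⟩ : ℕ) = h (x k) := by
    intro q
    rcases hs q with ⟨h1, h2⟩ | ⟨h1, h2⟩ | ⟨h1, h2⟩
    · have : Infinite {n // α n = q} := h1.to_subtype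
      have : Infinite {n // β n = q} := h2.to_subtype
      let s : Set {n // α n = q} := {a | (a : ℕ) ∈ range x}
      have hsf : s.Finite := by
        refine Finite.preimage (f := fun a : {n // α n = q} => (a : ℕ)) ?_ (finite_range x)
        exact Subtype.val_injective.injOn
      let f : s ↪ {n // β n = q} := ⟨fun a => ⟨h a.1.1, by rw [hh]; exact a.1.2⟩, fun a b hab => by
        have h3 : h a.1.1 = h b.1.1 := congrArg Subtype.val hab
        exact Subtype.ext (Subtype.ext (hinj h3))⟩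
      have hne : Nonempty ({n // α n = q} ≃ {n // β n = q}) := by
        have := Classical.choice (nonempty_denumerable {n // α n = q})
        have := Classical.choice (nonempty_denumerable {n // β n = q})
        exact ⟨(Denumerable.eqv _).trans (Denumerable.eqv _).symm⟩
      have hlt : Cardinal.mk s < Cardinal.mk {n // α n = q} := by
        refine lt_of_lt_of_le (Cardinal.lt_aleph0_iff_set_finite.2 hsf) ?_
        exact Cardinal.aleph0_le_mk _
      obtain ⟨e, he⟩ := Cardinal.extend_function_of_lt f hlt hne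
      refine ⟨e, fun k hk => ?_⟩
      have := he ⟨⟨x k, hk⟩, mem_range_self k⟩
      rw [this]
      rfl
    · obtain ⟨a, ha, hau⟩ := h1
      obtain ⟨b, hb, hbu⟩ := h2
      refine ⟨⟨fun _ => ⟨b, hb⟩, fun _ => ⟨a, ha⟩, fun z => Subtype.ext (hau _ z.2).symm,
        fun z => Subtype.ext (hbu _ z.2).symm⟩, fun k hk => ?_⟩
      exact (hbu _ (show β (h (x k)) = q by rw [hh]; exact hk)).symm
    · refine ⟨⟨fun z => absurd z.2 (h1 _), fun z => absurd z.2 (h2 _),
        fun z => absurd z.2 (h1 _), fun z => absurd z.2 (h2 _)⟩, fun k hk => absurd hk (h1 _)⟩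
  choose e he using hq
  let F : ℕ ≃ ℕ := (Equiv.sigmaFiberEquiv α).symm.trans
    ((Equiv.sigmaCongrRight e).trans (Equiv.sigmaFiberEquiv β))
  have hF : ∀ n, F n = e (α n) ⟨n, rfl⟩ := fun n => rfl
  refine ⟨F, fun n => ?_, fun k => ?_⟩
  · rw [hF]
    exact (e (α n) ⟨n, rfl⟩).2
  · rw [hF]
    exact he _ k rfl

/-- An injection which respects the fibres. -/
theorem exists_inj {Q : Type} {α β : ℕ → Q} (hs : ∀ q, (∃ n, α n = q) →
    {n | β n = q}.Infinite ∨ ((∃! n, α n = q) ∧ ∃! n, β n = q)) :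
    ∃ h : ℕ → ℕ, Function.Injective h ∧ ∀ n, β (h n) = α n := by
  classical
  have hq : ∀ q, ∃ e : {n // α n = q} → {n // β n = q}, Function.Injective e := by
    intro q
    by_cases hq : ∃ n, α n = q
    · rcases hs q hq with h2 | ⟨h1, h2⟩
      · have : Infinite {n // β n = q} := h2.to_subtype
        obtain ⟨g⟩ : Nonempty (ℕ ↪ {n // β n = q}) := ⟨Infinite.natEmbedding _⟩
        exact ⟨fun z => g z.1, fun z z' hz => Subtype.ext (g.injective hz)⟩
      · obtain ⟨a, ha, hau⟩ := h1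
        obtain ⟨b, hb, hbu⟩ := h2
        refine ⟨fun _ => ⟨b, hb⟩, fun z z' _ => Subtype.ext ?_⟩
        rw [hau _ z.2, hau _ z'.2]
    · exact ⟨fun z => absurd ⟨z.1, z.2⟩ hq, fun z => absurd ⟨z.1, z.2⟩ hq⟩
  choose e he using hq
  refine ⟨fun n => e (α n) ⟨n, rfl⟩, ?_, fun n => (e (α n) ⟨n, rfl⟩).2⟩
  intro n n' hn
  change ((e (α n) ⟨n, rfl⟩ : {k // β k = α n}) : ℕ) = e (α n') ⟨n', rfl⟩ at hn
  have h1 : α n = α n' := by
    rw [← (e (α n) ⟨n, rfl⟩).2, ← (e (α n') ⟨n', rfl⟩).2, hn]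
  have key : ∀ q (hq : α n' = q), ((e (α n') ⟨n', rfl⟩ : {k // β k = α n'}) : ℕ) =
      e q ⟨n', hq⟩ := by
    rintro q rfl
    rfl
  rw [key _ h1.symm] at hn
  have h2 := he _ (Subtype.ext hn)
  exact congrArg Subtype.val h2

end Pool.Agent.N618.EE
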