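import Mathlib

/-!
# A criterion for elementary embeddings in relational languages

A map between two structures of a relational language is an elementary embedding if for every
finite set of relation symbols and every finite tuple there is a bijection which agrees with the map
on the tuple and preserves the given relation symbols.
-/

set_option autoImplicit false

open FirstOrder

namespace Pool.Agent.N618.EE

/-- the relational language with the relation symbols `i : ℕ` of arity `a i` -/
abbrev Lg (a : ℕ → ℕ) : FirstOrder.Language.{0, 0} :=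
  FirstOrder.Language.mk (fun _ => PEmpty.{1}) (fun n => {i : ℕ // a i = n})

variable {a : ℕ → ℕ} {M N : Type} [(Lg a).Structure M] [(Lg a).Structure N]

/-- the bijection preserves the relation symbols in `s` -/
def Pres (a : ℕ → ℕ) (M N : Type) [(Lg a).Structure M] [(Lg a).Structure N]
    (s : Finset ℕ) (F : M ≃ N) : Prop :=
  ∀ (n : ℕ) (r : (Lg a).Relations n), (r : {i : ℕ // a i = n}).1 ∈ s → ∀ v : Fin n → M,
    FirstOrder.Language.Structure.RelMap r v ↔ FirstOrder.Language.Structure.RelMap r (F ∘ v)

theorem Pres.mono {s t : Finset ℕ} (h : s ⊆ t) {F : M ≃ N} (hF : Pres a M N t F) :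
    Pres a M N s F := fun n r hr v => hF n r (h hr) v

theorem term_realize {α : Type} (t : (Lg a).Term α) (F : M → N) (v : α → M) :
    t.realize (F ∘ v) = F (t.realize v) := by
  induction t with
  | var x => rfl
  | func f ts => exact PEmpty.elim f

theorem exists_occ {α : Type} {n : ℕ} (φ : (Lg a).BoundedFormula α n) :
    ∃ s : Finset ℕ, ∀ F : M ≃ N, Pres a M N s F → ∀ (v : α → M) (xs : Fin n → M),
      φ.Realize (F ∘ v) (F ∘ xs) ↔ φ.Realize v xs := by
  classical
  induction φ with
  | falsum => exact ⟨∅, fun F _ v xs => Iff.rfl⟩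
  | @equal n t₁ t₂ =>
    refine ⟨∅, fun F _ v xs => ?_⟩
    have hs : (Sum.elim (F ∘ v) (F ∘ xs) : α ⊕ Fin n → N) = F ∘ Sum.elim v xs := by
      funext x; rcases x with x | x <;> rfl
    simp only [FirstOrder.Language.BoundedFormula.Realize, hs, term_realize]
    exact F.injective.eq_iff
  | @rel n l r ts =>
    refine ⟨{(r : {i : ℕ // a i = l}).1}, fun F hF v xs => ?_⟩
    have hs : (Sum.elim (F ∘ v) (F ∘ xs) : α ⊕ Fin n → N) = F ∘ Sum.elim v xs := by
      funext x; rcases x with x | x <;> rfl
    simp only [FirstOrder.Language.BoundedFormula.Realize, hs, term_realize]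
    exact (hF l r (Finset.mem_singleton_self _) _).symm
  | imp φ ψ h1 h2 =>
    obtain ⟨s1, h1⟩ := h1
    obtain ⟨s2, h2⟩ := h2
    refine ⟨s1 ∪ s2, fun F hF v xs => ?_⟩
    simp only [FirstOrder.Language.BoundedFormula.Realize]
    rw [h1 F (hF.mono Finset.subset_union_left), h2 F (hF.mono Finset.subset_union_right)]
  | @all n φ h =>
    obtain ⟨s, h⟩ := h
    refine ⟨s, fun F hF v xs => ?_⟩
    simp only [FirstOrder.Language.BoundedFormula.Realize]
    constructor
    · intro h3 m
      have h4 := h3 (F m)
      have h5 : (Fin.snoc (F ∘ xs) (F m) : Fin (n + 1) → N) = F ∘ Fin.snoc xs m := by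
        rw [Fin.comp_snoc]
      rw [h5] at h4
      exact (h F hF v _).1 h4
    · intro h3 m
      have h4 := h3 (F.symm m)
      have h5 : (Fin.snoc (F ∘ xs) m : Fin (n + 1) → N) = F ∘ Fin.snoc xs (F.symm m) := by
        rw [Fin.comp_snoc, F.apply_symm_apply]
      rw [h5]
      exact (h F hF v _).2 h4

theorem exists_elem (h : M → N)
    (H : ∀ (s : Finset ℕ) (n : ℕ) (x : Fin n → M), ∃ F : M ≃ N, Pres a M N s F ∧
      ∀ k, F (x k) = h (x k)) :
    Nonempty (M ↪ₑ[Lg a] N) := by
  refine ⟨⟨h, fun n φ x => ?_⟩⟩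
  obtain ⟨s, hs⟩ := exists_occ (M := M) (N := N) φ
  obtain ⟨F, hF, hx⟩ := H s n x
  have h1 : h ∘ x = F ∘ x := by funext k; exact (hx k).symm
  rw [h1]
  have h2 := hs F hF x default
  unfold FirstOrder.Language.Formula.Realize
  have h3 : (F ∘ default : Fin 0 → N) = default := Subsingleton.elim _ _
  rw [h3] at h2
  exact h2

theorem elem_rel (e : M ↪ₑ[Lg a] N) {n : ℕ} (r : (Lg a).Relations n) (v : Fin n → M) :
    FirstOrder.Language.Structure.RelMap r v ↔ FirstOrder.Language.Structure.RelMap r (e ∘ v) :=
  (e.map_rel r v).symm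

end Pool.Agent.N618.EE
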