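import Pool.Agent.N618.EE.Rel

/-!
# Analytic quasi-orders and elementary embeddability: the class of structures
-/

set_option autoImplicit false

open Set MeasureTheory

namespace Pool.Agent.N618.EE

open Pool.Agent.H579R3.Epi (K IsAuto TLe N Lam tree_map rigid measurableSet_lam)

instance : MeasurableSpace D := ⊤
instance : DiscreteMeasurableSpace D := ⟨fun _ => trivial⟩

instance : Infinite D := Infinite.of_injective D.nd fun _ _ h => by simpa using h

lemma measurable_pull : Measurable pull := by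
  classical
  refine measurable_pi_lambda _ fun i => measurable_pi_lambda _ fun v => ?_
  have h1 : Measurable (fun π : ℕ → D => (π (v 0), π (v 1))) :=
    (measurable_pi_apply _).prodMk (measurable_pi_apply _)
  have h2 : Measurable (fun π : ℕ → D => decide (rel (sy i) (π (v 0)) (π (v 1)))) :=
    (Measurable.of_discrete (f := fun r : D × D => decide (rel (sy i) r.1 r.2))).comp h1
  have h3 : (fun π : ℕ → D => pull π i v) =
      fun π : ℕ → D => decide (rel (sy i) (π (v 0)) (π (v 1))) := by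
    funext π
    have := pull_iff π i v
    by_cases h4 : rel (sy i) (π (v 0)) (π (v 1))
    · rw [decide_eq_true h4, this.2 h4]
    · rw [decide_eq_false h4]
      rw [← Bool.not_eq_true, this]
      exact h4
  exact h3 ▸ h2

section

variable {X : Type} [MeasurableSpace X] (Λ : X → List ℤ → Set K)

/-- the classes which are infinite -/
def J (L : List ℤ → Set K) : D → Prop
  | .nd _ => False
  | .gp _ _ (some _) => True
  | .gp p κ none => κ ∈ L p

/-- the classes which are singletons -/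
def J1 : D → Prop
  | .nd _ => True
  | .gp _ _ _ => False

lemma fib_iff {L : List ℤ → Set K} {π : ℕ → D} : Fib L π ↔ ∀ d,
    (J1 d → ∃! n, π n = d) ∧ (J L d → {n | π n = d}.Infinite) ∧
      (¬ J1 d → ¬ J L d → ∀ n, π n ≠ d) := by
  constructor
  · intro h d
    rcases d with p | ⟨p, κ, i⟩
    · exact ⟨fun _ => h.nd p, fun h => absurd h (fun h => h), fun h1 => absurd trivial h1⟩
    · rcases i with _ | i
      · exact ⟨fun h => absurd h (fun h => h), fun h1 => h.inf p κ h1, fun _ h1 => h.non p κ h1⟩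
      · exact ⟨fun h => absurd h (fun h => h), fun _ => h.gp p κ i, fun _ h1 => absurd trivial h1⟩
  · intro h
    refine ⟨fun p => (h (.nd p)).1 trivial, fun p κ i => (h (.gp p κ (some i))).2.1 trivial,
      fun p κ hκ => (h (.gp p κ none)).2.1 hκ, fun p κ hκ => (h (.gp p κ none)).2.2 (fun h => h) hκ⟩

lemma measurableSet_J (hΛ : ∀ p κ, MeasurableSet {x : X | κ ∈ Λ x p}) (d : D) :
    MeasurableSet {x : X | J (Λ x) d} := by
  rcases d with p | ⟨p, κ, i⟩
  · exact MeasurableSet.const False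
  · rcases i with _ | i
    · exact hΛ p κ
    · exact MeasurableSet.const True

lemma measurableSet_fib (hΛ : ∀ p κ, MeasurableSet {x : X | κ ∈ Λ x p}) :
    MeasurableSet {q : (ℕ → D) × X | Fib (Λ q.2) q.1} := by
  have hn : ∀ (n : ℕ) (d : D), MeasurableSet {q : (ℕ → D) × X | q.1 n = d} := by
    intro n d
    have h1 : Measurable (fun q : (ℕ → D) × X => q.1 n) := (measurable_pi_apply n).comp measurable_fst
    exact h1 (MeasurableSet.of_discrete (s := {d}))
  have hinf : ∀ d : D, MeasurableSet {q : (ℕ → D) × X | {n | q.1 n = d}.Infinite} := by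
    intro d
    have : {q : (ℕ → D) × X | {n | q.1 n = d}.Infinite} =
        ⋂ m : ℕ, ⋃ n : ℕ, ⋃ _ : m ≤ n, {q : (ℕ → D) × X | q.1 n = d} := by
      ext q
      simp only [mem_iInter, mem_iUnion]
      change {n | q.1 n = d}.Infinite ↔ _
      rw [← Nat.frequently_atTop_iff_infinite, Filter.frequently_atTop]
      constructor
      · intro h m
        obtain ⟨n, h1, h2⟩ := h m
        exact ⟨n, h1, h2⟩
      · intro h m
        obtain ⟨n, h1, h2⟩ := h m
        exact ⟨n, h1, h2⟩
    rw [this]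
    exact MeasurableSet.iInter fun m => MeasurableSet.iUnion fun n => MeasurableSet.iUnion fun _ =>
      hn n d
  have hun : ∀ d : D, MeasurableSet {q : (ℕ → D) × X | ∃! n, q.1 n = d} := by
    intro d
    have : {q : (ℕ → D) × X | ∃! n, q.1 n = d} =
        ⋃ n : ℕ, ({q : (ℕ → D) × X | q.1 n = d} ∩
          ⋂ m : ℕ, ⋂ _ : m ≠ n, {q : (ℕ → D) × X | q.1 m = d}ᶜ) := by
      ext q
      simp only [mem_iUnion, mem_inter_iff, mem_iInter, mem_compl_iff]
      constructor
      · rintro ⟨n, h1, h2⟩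
        exact ⟨n, h1, fun m hm h3 => hm (h2 m h3)⟩
      · rintro ⟨n, h1, h2⟩
        refine ⟨n, h1, fun m hm => ?_⟩
        by_contra h3
        exact h2 m h3 hm
    rw [this]
    exact MeasurableSet.iUnion fun n => (hn n d).inter
      (MeasurableSet.iInter fun m => MeasurableSet.iInter fun _ => (hn m d).compl)
  have hno : ∀ d : D, MeasurableSet {q : (ℕ → D) × X | ∀ n, q.1 n ≠ d} := by
    intro d
    have : {q : (ℕ → D) × X | ∀ n, q.1 n ≠ d} = ⋂ n : ℕ, {q : (ℕ → D) × X | q.1 n = d}ᶜ := by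
      ext q
      simp
    rw [this]
    exact MeasurableSet.iInter fun n => (hn n d).compl
  have hJ : ∀ d, MeasurableSet {q : (ℕ → D) × X | J (Λ q.2) d} := fun d =>
    measurable_snd (measurableSet_J Λ hΛ d)
  have hJ1 : ∀ d, MeasurableSet {_q : (ℕ → D) × X | J1 d} := fun d => MeasurableSet.const _
  have : {q : (ℕ → D) × X | Fib (Λ q.2) q.1} = ⋂ d : D,
      (({_q : (ℕ → D) × X | J1 d}ᶜ ∪ {q : (ℕ → D) × X | ∃! n, q.1 n = d}) ∩
      (({q : (ℕ → D) × X | J (Λ q.2) d}ᶜ ∪ {q : (ℕ → D) × X | {n | q.1 n = d}.Infinite}) ∩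
        ({_q : (ℕ → D) × X | J1 d} ∪ ({q : (ℕ → D) × X | J (Λ q.2) d} ∪
          {q : (ℕ → D) × X | ∀ n, q.1 n ≠ d})))) := by
    ext q
    simp only [mem_iInter, mem_inter_iff, mem_union, mem_compl_iff]
    change Fib (Λ q.2) q.1 ↔ _
    rw [fib_iff]
    refine forall_congr' fun d => ?_
    change _ ↔ ((¬ J1 d ∨ ∃! n, q.1 n = d) ∧ (¬ J (Λ q.2) d ∨ {n | q.1 n = d}.Infinite) ∧
      (J1 d ∨ J (Λ q.2) d ∨ ∀ n, q.1 n ≠ d))
    tauto
  rw [this]
  exact MeasurableSet.iInter fun d => ((hJ1 d).compl.union (hun d)).inter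
    (((hJ d).compl.union (hinf d)).inter ((hJ1 d).union ((hJ d).union (hno d))))

/-- a class which is always infinite -/
def junk : D := .gp [] (Sum.inr 0) (some 0)

open Classical in
/-- a map of `ℕ` to `D` with the prescribed fibres -/
noncomputable def rho (e : ℕ ≃ D × ℕ) (L : List ℤ → Set K) (n : ℕ) : D :=
  if ((e n).2 = 0 ∧ J1 (e n).1) ∨ J L (e n).1 then (e n).1 else junk

lemma J_or {L : List ℤ → Set K} {d : D} : J1 d → ¬ J L d := by
  rcases d with p | ⟨p, κ, i⟩
  · exact fun _ h => h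
  · exact fun h => absurd h (fun h => h)

lemma fib_rho (e : ℕ ≃ D × ℕ) (L : List ℤ → Set K) : Fib L (rho e L) := by
  classical
  rw [fib_iff]
  intro d
  refine ⟨fun hd => ?_, fun hd => ?_, fun hd hd' n hn => ?_⟩
  · refine ⟨e.symm (d, 0), ?_, ?_⟩
    · simp [rho, hd]
    · intro n hn
      simp only [rho] at hn
      split_ifs at hn with h1
      · rcases h1 with h1 | h1
        · rw [Equiv.eq_symm_apply]
          exact Prod.ext hn h1.1
        · rw [hn] at h1
          exact absurd h1 (J_or hd)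
      · rw [← hn] at hd
        exact absurd hd (fun h => h)
  · have h1 : range (fun i : ℕ => e.symm (d, i)) ⊆ {n | rho e L n = d} := by
      rintro n ⟨i, rfl⟩
      change rho e L (e.symm (d, i)) = d
      simp [rho, hd]
    refine Infinite.mono h1 (infinite_range_of_injective ?_)
    intro i j hij
    simpa using hij
  · simp only [rho] at hn
    split_ifs at hn with h1
    · rw [hn] at h1
      rcases h1 with h1 | h1
      · exact hd h1.2
      · exact hd' h1
    · rw [← hn] at hd'
      exact hd' trivial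

lemma measurable_rho (hΛ : ∀ p κ, MeasurableSet {x : X | κ ∈ Λ x p}) (e : ℕ ≃ D × ℕ) :
    Measurable (fun x : X => rho e (Λ x)) := by
  classical
  refine measurable_pi_lambda _ fun n => ?_
  have : MeasurableSet {x : X | ((e n).2 = 0 ∧ J1 (e n).1) ∨ J (Λ x) (e n).1} :=
    (MeasurableSet.const _).union (measurableSet_J Λ hΛ _)
  exact Measurable.ite this measurable_const measurable_const

end

lemma Fib.perm {L : List ℤ → Set K} {π : ℕ → D} (h : Fib L π) (σ : Equiv.Perm ℕ) :
    Fib L (π ∘ σ) := by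
  rw [fib_iff] at h ⊢
  intro d
  obtain ⟨h1, h2, h3⟩ := h d
  refine ⟨fun hd => ?_, fun hd => ?_, fun hd hd' n => h3 hd hd' _⟩
  · obtain ⟨n, hn, hu⟩ := h1 hd
    refine ⟨σ.symm n, by simpa using hn, fun m hm => ?_⟩
    rw [Equiv.eq_symm_apply]
    exact hu _ hm
  · have h4 : {n | (π ∘ σ) n = d} = σ ⁻¹' {n | π n = d} := rfl
    rw [h4]
    exact (h2 hd).preimage (by rw [σ.surjective.range_eq]; exact subset_univ _)

/-- The main theorem: every analytic quasi-order on a nonempty Polish space is Borel equivalent to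
elementary embeddability on an invariant Borel class of countable structures. -/
theorem main (X : Type) [Nonempty X] [TopologicalSpace X] [PolishSpace X] [MeasurableSpace X]
    [BorelSpace X] (R : X → X → Prop) (hrefl : ∀ x, R x x)
    (htrans : ∀ x y z, R x y → R y z → R x z) (hR : AnalyticSet {p : X × X | R p.1 p.2}) :
    ∃ B : Set Str, MeasurableSet B ∧
      (∀ (σ : Equiv.Perm ℕ) (u : Str), u ∈ B ↔ (fun i v => u i (σ ∘ v) : Str) ∈ B) ∧
      (∃ f : X → Str, Measurable f ∧ (∀ x, f x ∈ B) ∧ ∀ x y, R x y ↔ Emb (f x) (f y)) ∧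
      (∃ g : B → X, Measurable g ∧ ∀ u v : B, Emb u.1 v.1 ↔ R (g u) (g v)) := by
  classical
  obtain ⟨x₀⟩ := ‹Nonempty X›
  -- a Borel embedding of `X` into Baire space
  obtain ⟨c₀, hc₀m, hc₀i⟩ :=
    MeasurableSpace.measurable_injection_nat_bool_of_countablySeparated X
  let c : X → N := fun x n => (c₀ x n).toNat
  have hcm : Measurable c := by
    refine measurable_pi_lambda _ fun n => ?_
    exact (Measurable.of_discrete (f := Bool.toNat)).comp ((measurable_pi_apply n).comp hc₀m)
  have hci : Function.Injective c := by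
    intro x y hxy
    apply hc₀i
    funext n
    have h := congrFun hxy n
    simp only [c] at h
    cases h1 : c₀ x n <;> cases h2 : c₀ y n <;> simp_all
  -- the relation as a continuous image
  rw [AnalyticSet] at hR
  obtain ⟨ψ, hψ, hψr⟩ : ∃ ψ : (ℕ → ℕ) → X × X, Continuous ψ ∧
      range ψ = {p : X × X | R p.1 p.2} := by
    rcases hR with hR | hR
    · have h0 : (x₀, x₀) ∈ {p : X × X | R p.1 p.2} := hrefl x₀
      rw [hR] at h0
      exact absurd h0 (notMem_empty _)
    · exact hR
  have hS : AnalyticSet (range fun w : ℕ → ℕ => (c (ψ w).1, c (ψ w).2)) := by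
    have h1 : Measurable (fun w : ℕ → ℕ => (c (ψ w).1, c (ψ w).2)) :=
      (hcm.comp (measurable_fst.comp hψ.measurable)).prodMk
        (hcm.comp (measurable_snd.comp hψ.measurable))
    have h2 := (MeasurableSet.univ (α := ℕ → ℕ)).analyticSet_image h1
    rwa [image_univ] at h2
  rw [AnalyticSet] at hS
  obtain ⟨θ, hθ, hθr⟩ : ∃ θ : N → N × N, Continuous θ ∧
      range θ = range fun w : ℕ → ℕ => (c (ψ w).1, c (ψ w).2) := by
    rcases hS with hS | hS
    · have : (c (ψ 0).1, c (ψ 0).2) ∈ (∅ : Set (N × N)) := by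
        rw [← hS]
        exact ⟨0, rfl⟩
      exact absurd this (notMem_empty _)
    · exact hS
  let α : N → N := fun w => (θ w).1
  let β : N → N := fun w => (θ w).2
  have hα : Continuous α := continuous_fst.comp hθ
  have hβ : Continuous β := continuous_snd.comp hθ
  have h1 : ∀ w, ∃ x y, R x y ∧ α w = c x ∧ β w = c y := by
    intro w
    have : θ w ∈ range fun w : ℕ → ℕ => (c (ψ w).1, c (ψ w).2) := by
      rw [← hθr]
      exact ⟨w, rfl⟩
    obtain ⟨w', hw'⟩ := this
    refine ⟨(ψ w').1, (ψ w').2, ?_, ?_, ?_⟩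
    · have h0 : ψ w' ∈ {p : X × X | R p.1 p.2} := by
        rw [← hψr]
        exact ⟨w', rfl⟩
      exact h0
    · exact (congrArg Prod.fst hw').symm
    · exact (congrArg Prod.snd hw').symm
  have h2 : ∀ x y, R x y → ∃ w, α w = c x ∧ β w = c y := by
    intro x y hxy
    have hxy' : (x, y) ∈ {p : X × X | R p.1 p.2} := hxy
    rw [← hψr] at hxy'
    obtain ⟨w', hw'⟩ := hxy'
    have : (c x, c y) ∈ range θ := by
      rw [hθr]
      exact ⟨w', by simp only [hw']⟩
    obtain ⟨w, hw⟩ := this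
    exact ⟨w, congrArg Prod.fst hw, congrArg Prod.snd hw⟩
  have htr : ∀ u v t w w', α w = u → β w = v → α w' = v → β w' = t →
      ∃ w'', α w'' = u ∧ β w'' = t := by
    intro u v t w w' e1 e2 e3 e4
    obtain ⟨x, y, hxy, e5, e6⟩ := h1 w
    obtain ⟨y', z, hyz, e7, e8⟩ := h1 w'
    have : y = y' := hci (by rw [← e6, ← e7, e2, e3])
    subst this
    obtain ⟨w'', e9, e10⟩ := h2 x z (htrans x y z hxy hyz)
    exact ⟨w'', by rw [e9, ← e5, e1], by rw [e10, ← e8, e4]⟩
  let Λ : X → List ℤ → Set K := fun x => Lam α β (c x)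
  have key1 : ∀ x y, R x y → TLe (Λ x) (Λ y) := by
    intro x y h
    obtain ⟨w, e1, e2⟩ := h2 x y h
    exact tree_map e1 e2
  have key2 : ∀ x y, (∃ g : List ℤ → List ℤ, g [] = [] ∧
      (∀ k p, ∃ k', g (k :: p) = k' :: g p) ∧ ∀ p, Λ x p ⊆ Λ y (g p)) → R x y := by
    rintro x y ⟨g, g1, g2, g3⟩
    rcases rel_of_hom hα hβ htr g1 g2 g3 with h3 | ⟨w, e1, e2⟩
    · rw [hci h3]
      exact hrefl _
    · obtain ⟨x', y', hxy, e3, e4⟩ := h1 w
      have e5 : x = x' := hci (by rw [← e1, e3])
      have e6 : y = y' := hci (by rw [← e2, e4])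
      rw [e5, e6]
      exact hxy
  have key : ∀ x y π π', Fib (Λ x) π → Fib (Λ y) π' → (Emb (pull π) (pull π') ↔ R x y) := by
    intro x y π π' h h'
    exact ⟨fun he => key2 x y (hom_of_ee h h' he), fun hr => ee_of_tle h h' (key1 x y hr)⟩
  have hΛ : ∀ p κ, MeasurableSet {x : X | κ ∈ Λ x p} := fun p κ =>
    hcm (measurableSet_lam (α := α) (β := β) p κ)
  -- the class of structures
  let A : Set ((ℕ → D) × X) := {q | Fib (Λ q.2) q.1}
  have hA : MeasurableSet A := measurableSet_fib Λ hΛ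
  let Φ : (ℕ → D) × X → Str := fun q => pull q.1
  have hΦ : Measurable Φ := measurable_pull.comp measurable_fst
  have hinj : InjOn Φ A := by
    rintro ⟨π, x⟩ hq ⟨π', x'⟩ hq' h
    obtain ⟨g, hg, hgπ, hgΛ⟩ := rigid_of (show Fib (Λ x) π from hq) (show Fib (Λ x') π' from hq')
      (rel_of_pull h)
    obtain ⟨hid, hxx⟩ := rigid hg hgΛ
    have : ∀ d, mapD g d = d := by
      intro d
      rcases d with p | ⟨p, κ, i⟩
      · change D.nd (g p) = _
        rw [hid]
      · change D.gp (g p) κ i = _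
        rw [hid]
    refine Prod.ext ?_ (hci hxx)
    funext n
    change π n = π' n
    rw [hgπ, this]
  have hAs : StandardBorelSpace A := hA.standardBorel
  let Ψ : A → Str := fun q => Φ q.1
  have hΨ : MeasurableEmbedding Ψ := by
    apply Measurable.measurableEmbedding (hΦ.comp measurable_subtype_coe)
    intro q q' h
    exact Subtype.ext (hinj q.2 q'.2 h)
  obtain ⟨G, hG, hGΨ⟩ := hΨ.exists_measurable_extend
    (g := fun q : A => q.1.2) (measurable_snd.comp measurable_subtype_coe) (fun _ => ⟨x₀⟩)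
  have hGpull : ∀ π x, Fib (Λ x) π → G (pull π) = x := by
    intro π x h
    exact congrFun hGΨ ⟨(π, x), h⟩
  obtain ⟨e⟩ : Nonempty (ℕ ≃ D × ℕ) := by
    have := Classical.choice (nonempty_denumerable (D × ℕ))
    exact ⟨(Denumerable.eqv (D × ℕ)).symm⟩
  have hσ : ∀ (σ : Equiv.Perm ℕ) (u : Str), u ∈ Φ '' A → (fun i v => u i (σ ∘ v) : Str) ∈ Φ '' A := by
    rintro σ _ ⟨⟨π, x⟩, hq, rfl⟩
    exact ⟨(π ∘ σ, x), Fib.perm (show Fib (Λ x) π from hq) σ, rfl⟩
  refine ⟨Φ '' A, hA.image_of_measurable_injOn hΦ hinj, ?_, ?_, ?_⟩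
  · intro σ u
    refine ⟨hσ σ u, fun h => ?_⟩
    have h3 := hσ σ.symm _ h
    have h4 : (fun i v => (fun i v => u i (σ ∘ v) : Str) i (σ.symm ∘ v) : Str) = u := by
      funext i v
      change u i (σ ∘ (σ.symm ∘ v)) = u i v
      congr 1
      funext k
      simp
    rwa [h4] at h3
  · refine ⟨fun x => pull (rho e (Λ x)), measurable_pull.comp (measurable_rho Λ hΛ e), ?_, ?_⟩
    · intro x
      exact ⟨(rho e (Λ x), x), fib_rho e _, rfl⟩
    · intro x y
      exact (key x y _ _ (fib_rho e (Λ x)) (fib_rho e (Λ y))).symm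
  · refine ⟨fun u => G u.1, hG.comp measurable_subtype_coe, ?_⟩
    rintro ⟨_, ⟨⟨π, x⟩, hq, rfl⟩⟩ ⟨_, ⟨⟨π', y⟩, hq', rfl⟩⟩
    change Emb (pull π) (pull π') ↔ R (G (pull π)) (G (pull π'))
    rw [key x y π π' hq hq', hGpull π x hq, hGpull π' y hq']

end Pool.Agent.N618.EE
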