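import Pool.Agent.N618.EE.Str

/-!
# The main theorem: analytic quasi-orders and elementary embeddability
-/

set_option autoImplicit false

open Set MeasureTheory

namespace Pool.Agent.N618.EE

open Pool.Agent.H579R3.Epi (K IsAuto TLe N Lam Good Enc Valid last ent evalAt Enc.get br br_length
  br_lam Lam_inr last_congr tree_map rigid measurableSet_lam)

section

variable {α β : N → N}

/-- the relation with witnesses `w`, where `α w` is related to `β w` -/
theorem rel_of_hom {x y : N} (hα : Continuous α) (hβ : Continuous β)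
    (htrans : ∀ u v t w w', α w = u → β w = v → α w' = v → β w' = t →
      ∃ w'', α w'' = u ∧ β w'' = t)
    {g : List ℤ → List ℤ} (hnil : g [] = []) (hcons : ∀ k p, ∃ k', g (k :: p) = k' :: g p)
    (hL : ∀ p, Lam α β x p ⊆ Lam α β y (g p)) : x = y ∨ ∃ w, α w = x ∧ β w = y := by
  let q : ℕ → List ℤ := fun n => g (br x n)
  have hex : ∀ n, ∃ k, q (n + 1) = k :: q n := fun n => hcons _ _
  choose k hk using hex
  have hl : ∀ n, (q n).length = n := by
    intro n
    induction n with
    | zero =>
      change (g []).length = 0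
      rw [hnil]
      rfl
    | succ n ih => rw [hk, List.length_cons, ih]
  have hmem : ∀ n, Valid α β y (q (n + 1)) ∧ x n = (ent (k n)).1 := by
    intro n
    have h1 := hL _ (br_lam (α := α) (β := β) x n)
    change _ ∈ Lam α β y (q (n + 1)) at h1
    rw [hk, Lam_inr] at h1
    rw [hk]
    exact h1
  -- the limit chain
  set m := (ent (k 0)).2.length with hm
  let L : List (N × N) := List.ofFn fun j : Fin m =>
    ((fun i => ((ent (k i)).2.getD j (0, 0)).1), (fun i => ((ent (k i)).2.getD j (0, 0)).2))
  have hlen : ∀ n, (ent (k n)).2.length = m := by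
    intro n
    obtain ⟨⟨a, l, -, h2, -⟩, -⟩ := hmem n
    have h3 := Enc.get hk hl h2 n (by omega)
    have h4 := Enc.get hk hl h2 0 (by omega)
    rw [hm, h3, h4]
    simp [evalAt]
  have hev : ∀ n, evalAt x L n = ent (k n) := by
    intro n
    have h1 : (L.map fun q => (q.1 n, q.2 n)) = (ent (k n)).2 := by
      apply List.ext_getElem
      · simp [L, hlen]
      · intro j h2 h3
        simp [L, List.getElem?_eq_getElem h3]
    rw [evalAt, h1, (hmem n).2]
  have hgood : ∀ n, Good α β n x L ∧ ∀ i < n, last x L i = y i := by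
    intro n
    rcases n with _ | n
    · obtain ⟨⟨a, l, h1, h2, -⟩, -⟩ := hmem 0
      refine ⟨?_, fun i hi => by omega⟩
      have h3 := Enc.get hk hl h2 0 (by omega)
      have h4 := hev 0
      rw [h3] at h4
      have h5 : l.length = L.length := by
        have := congrArg (fun e => e.2.length) h4
        simp only [evalAt, List.length_map] at this
        exact this.symm
      exact (h1.mono (Nat.zero_le _)).congr h5 (fun i hi => by omega)
    · obtain ⟨⟨a, l, h1, h2, h2'⟩, -⟩ := hmem n
      have h3 := Enc.get hk hl h2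
      rw [hl] at h1 h2'
      have h5 : l.length = L.length := by
        have h4 := hev 0
        rw [h3 0 (by omega)] at h4
        have := congrArg (fun e => e.2.length) h4
        simp only [evalAt, List.length_map] at this
        exact this.symm
      have h6 : ∀ i < n + 1, evalAt a l i = evalAt x L i := by
        intro i hi
        rw [hev, h3 i hi]
      refine ⟨h1.congr h5 h6, fun i hi => ?_⟩
      rw [← last_congr (h6 i hi)]
      exact h2' i hi
  have hlast : last x L = y := by
    funext i
    exact (hgood (i + 1)).2 i (by omega)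
  -- closedness
  have hclosed : ∀ (a b w : N), (∀ n, ∃ w' : N, ∀ i < n, α w' i = a i ∧ β w' i = b i ∧ w' i = w i) →
      α w = a ∧ β w = b := by
    intro a b w h1
    choose w' hw' using h1
    have hlim : Filter.Tendsto w' Filter.atTop (nhds w) := by
      rw [tendsto_pi_nhds]
      intro i
      apply tendsto_const_nhds.congr'
      filter_upwards [Filter.eventually_gt_atTop i] with n hn
      exact ((hw' n i hn).2.2).symm
    constructor
    · funext i
      have h2 := (tendsto_pi_nhds.1 ((hα.tendsto w).comp hlim)) i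
      have h3 : Filter.Tendsto (fun n => (α ∘ w') n i) Filter.atTop (nhds (a i)) := by
        apply tendsto_const_nhds.congr'
        filter_upwards [Filter.eventually_gt_atTop i] with n hn
        exact ((hw' n i hn).1).symm
      exact tendsto_nhds_unique h2 h3
    · funext i
      have h2 := (tendsto_pi_nhds.1 ((hβ.tendsto w).comp hlim)) i
      have h3 : Filter.Tendsto (fun n => (β ∘ w') n i) Filter.atTop (nhds (b i)) := by
        apply tendsto_const_nhds.congr'
        filter_upwards [Filter.eventually_gt_atTop i] with n hn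
        exact ((hw' n i hn).2.1).symm
      exact tendsto_nhds_unique h2 h3
  have hreach : ∀ l : List (N × N), (∀ n, Good α β n x l) →
      x = last x l ∨ ∃ w, α w = x ∧ β w = last x l := by
    intro l
    induction l with
    | nil => intro _; exact Or.inl rfl
    | cons q l ih =>
      intro h1
      have h2 := ih fun n => (h1 n).2
      obtain ⟨h3, h4⟩ := hclosed (last x l) q.2 q.1 fun n => (h1 n).1
      rcases h2 with h2 | ⟨w, h5, h6⟩
      · exact Or.inr ⟨q.1, by rw [h3, ← h2], h4⟩
      · obtain ⟨w'', h7, h8⟩ := htrans _ _ _ _ _ h5 h6 h3 h4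
        exact Or.inr ⟨w'', h7, h8⟩
  have := hreach L fun n => (hgood n).1
  rwa [hlast] at this


end

/-! ### Structures on the natural numbers -/

/-- the arities -/
abbrev ar : ℕ → ℕ := fun _ => 2

/-- the space of structures -/
abbrev Str : Type := ∀ i : ℕ, (Fin (ar i) → ℕ) → Bool

/-- the structure coded by a point of the space of structures -/
abbrev str (u : Str) : (Lg ar).Structure ℕ :=
  @FirstOrder.Language.Structure.mk (Lg ar) ℕ (fun f _ => PEmpty.elim f)
    (fun r xs => u (Subtype.val r) (xs ∘ Fin.cast (Subtype.property r)) = true)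

/-- elementary embeddability -/
abbrev Emb (u v : Str) : Prop :=
  Nonempty (@FirstOrder.Language.ElementaryEmbedding (Lg ar) ℕ ℕ (str u) (str v))

/-- an enumeration of the relation symbols -/
noncomputable def sy : ℕ → I := (exists_surjective_nat I).choose

lemma sy_surj : Function.Surjective sy := (exists_surjective_nat I).choose_spec

open Classical in
/-- the structure on `ℕ` pulled back from the reduced structure -/
noncomputable def pull (π : ℕ → D) : Str := fun i v => decide (rel (sy i) (π (v 0)) (π (v 1)))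

lemma pull_iff (π : ℕ → D) (i : ℕ) (v : Fin 2 → ℕ) :
    pull π i v = true ↔ rel (sy i) (π (v 0)) (π (v 1)) := by
  classical
  unfold pull
  rw [decide_eq_true_iff]

lemma rel_of_pull {π ρ : ℕ → D} (h : pull π = pull ρ) (r : I) (a b : ℕ) :
    rel r (π a) (π b) ↔ rel r (ρ a) (ρ b) := by
  obtain ⟨i, rfl⟩ := sy_surj r
  have h1 := pull_iff π i ![a, b]
  have h2 := pull_iff ρ i ![a, b]
  rw [h] at h1
  exact h1.symm.trans h2

lemma exists_low (s : Finset ℕ) : ∃ J, ∀ i ∈ s, Low J (sy i) := by
  classical
  have h1 : ∀ r : I, ∃ J0, ∀ J, J0 ≤ J → Low J r := by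
    intro r
    rcases r with _ | _ | _ | κ | j
    · exact ⟨0, fun _ _ => trivial⟩
    · exact ⟨0, fun _ _ => trivial⟩
    · exact ⟨0, fun _ _ => trivial⟩
    · exact ⟨0, fun _ _ => trivial⟩
    · exact ⟨j, fun _ h => h⟩
  choose J0 hJ0 using h1
  exact ⟨s.sup fun i => J0 (sy i), fun i hi =>
    hJ0 _ _ (Finset.le_sup (f := fun i => J0 (sy i)) hi)⟩

theorem ee_of_tle {L L' : List ℤ → Set K} {π π' : ℕ → D} (h : Fib L π) (h' : Fib L' π')
    (ht : TLe L L') : Emb (pull π) (pull π') := by
  obtain ⟨g, hg, hL⟩ := ht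
  obtain ⟨H, hinj, hH⟩ := exists_h h h' hg hL
  refine @exists_elem ar ℕ ℕ (str (pull π)) (str (pull π')) H fun s n x => ?_
  obtain ⟨J, hJ⟩ := exists_low s
  obtain ⟨F, hF, hx⟩ := exists_F h h' hg hinj hH J x
  refine ⟨F, ?_, hx⟩
  rintro n ⟨i, hi⟩ hr v
  have hi' : 2 = n := hi
  subst hi'
  change (pull π i (v ∘ Fin.cast _) = true) ↔ (pull π' i ((F ∘ v) ∘ Fin.cast _) = true)
  rw [pull_iff, pull_iff]
  exact hF (sy i) (hJ i hr) _ _

theorem hom_of_ee {L L' : List ℤ → Set K} {π π' : ℕ → D} (h : Fib L π) (h' : Fib L' π')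
    (he : Emb (pull π) (pull π')) : ∃ g : List ℤ → List ℤ, g [] = [] ∧
      (∀ k p, ∃ k', g (k :: p) = k' :: g p) ∧ ∀ p, L p ⊆ L' (g p) := by
  obtain ⟨e⟩ := he
  let H : ℕ → ℕ := @FirstOrder.Language.ElementaryEmbedding.toFun _ _ _
    (str (pull π)) (str (pull π')) e
  have hH : ∀ r a b, rel r (π a) (π b) ↔ rel r (π' (H a)) (π' (H b)) := by
    intro r a b
    obtain ⟨i, rfl⟩ := sy_surj r
    have h1 := @elem_rel ar ℕ ℕ (str (pull π)) (str (pull π')) e 2 ⟨i, rfl⟩ ![a, b]
    change (pull π i (![a, b] ∘ Fin.cast _) = true) ↔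
      (pull π' i ((H ∘ ![a, b]) ∘ Fin.cast _) = true) at h1
    rw [pull_iff, pull_iff] at h1
    exact h1
  obtain ⟨g, -, h2, h3, h4, -⟩ := exists_g h h' hH
  exact ⟨g, h2, h3, h4⟩

end Pool.Agent.N618.EE
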