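import Pool.Agent.N618.EE.Logic
import Pool.Agent.N618.EE.Fibre
import Pool.Agent.H579R3.Epi2

/-!
# Labelled trees as structures with elementary embeddings

The reduced structure has the nodes of the tree and, for every node `p` and every label `κ`, points
`gp p κ i` with `i : ℕ` or `i = ∞`.  Every point `gp p κ i` is present infinitely often for finite
`i`, and the point `gp p κ ∞` is present infinitely often if `κ` is a label of `p`, and is absent
otherwise.  This is not visible to any first-order formula, but is preserved by elementary maps.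
-/

set_option autoImplicit false

open Set

namespace Pool.Agent.N618.EE

open Pool.Agent.H579R3.Epi (K IsAuto TLe)

/-- the universe of the reduced structure: nodes and points; `none` stands for infinity -/
inductive D : Type
  | nd (p : List ℤ) : D
  | gp (p : List ℤ) (κ : K) (i : Option ℕ) : D

/-- a code for the elements of `D` -/
def D.code : D → List ℤ × Option (K × Option ℕ)
  | .nd p => (p, none)
  | .gp p κ i => (p, some (κ, i))

lemma D.code_injective : Function.Injective D.code := by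
  intro a b h
  cases a <;> cases b <;> simp_all [D.code]

instance : Countable D := D.code_injective.countable

/-- the relation symbols -/
inductive I : Type
  | root : I
  | node : I
  | par : I
  | att (κ : K) : I
  | lev (j : ℕ) : I

def I.code : I → ℕ × Option K
  | .root => (0, none)
  | .node => (1, none)
  | .par => (2, none)
  | .att κ => (0, some κ)
  | .lev j => (j + 3, none)

lemma I.code_injective : Function.Injective I.code := by
  intro a b h
  cases a <;> cases b <;> simp_all [I.code]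

instance : Countable I := I.code_injective.countable
instance : Nonempty I := ⟨.root⟩

/-- `i` is at least `j` -/
def ge (j : ℕ) : Option ℕ → Prop
  | none => True
  | some i => j ≤ i

/-- the relations of the reduced structure -/
def rel : I → D → D → Prop
  | .root, a, _ => a = .nd []
  | .node, a, _ => ∃ p, a = .nd p
  | .par, a, b => ∃ p k, a = .nd p ∧ b = .nd (k :: p)
  | .att κ, a, b => ∃ p i, a = .nd p ∧ b = .gp p κ i
  | .lev j, a, _ => ∃ p κ i, a = .gp p κ i ∧ ge j i

/-- the map of `D` induced by a map of the tree -/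
def mapD (g : List ℤ → List ℤ) : D → D
  | .nd p => .nd (g p)
  | .gp p κ i => .gp (g p) κ i

/-- capping of a level -/
def capO (J : ℕ) : Option ℕ → Option ℕ
  | none => none
  | some i => if i < J then some i else none

/-- identification of the levels from `J` on -/
def cap (J : ℕ) : D → D
  | .nd p => .nd p
  | .gp p κ i => .gp p κ (capO J i)

lemma ge_capO {j J : ℕ} (h : j ≤ J) (i : Option ℕ) : ge j (capO J i) ↔ ge j i := by
  rcases i with _ | i
  · rfl
  · by_cases h1 : i < J
    · simp [capO, h1]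
    · simp only [capO, h1, if_false, ge, true_iff]
      omega

/-- the symbol is insensitive to capping at `J` -/
def Low (J : ℕ) : I → Prop
  | .lev j => j ≤ J
  | _ => True

lemma rel_cap {J : ℕ} {r : I} (hr : Low J r) (a b : D) : rel r (cap J a) (cap J b) ↔ rel r a b := by
  cases r <;> cases a <;> cases b <;> simp_all [rel, cap, Low, ge_capO]

lemma rel_mapD {g : List ℤ → List ℤ} (hg : IsAuto g) (r : I) (a b : D) :
    rel r (mapD g a) (mapD g b) ↔ rel r a b := by
  have h0 : ∀ p, g p = [] ↔ p = [] := fun p =>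
    ⟨fun h => hg.bij.1 (h.trans hg.nil.symm), fun h => by rw [h, hg.nil]⟩
  have h1 : ∀ p q k, g q = k :: g p ↔ ∃ k', q = k' :: p ∧ g (k' :: p) = k :: g p := by
    intro p q k
    constructor
    · intro h
      rcases q with _ | ⟨k', q⟩
      · rw [hg.nil] at h
        exact absurd h (by simp)
      · obtain ⟨k'', h2⟩ := hg.cons k' q
        rw [h2, List.cons.injEq] at h
        have h3 := hg.bij.1 h.2
        subst h3
        exact ⟨k', rfl, by rw [h2, h.1]⟩
    · rintro ⟨k', rfl, h⟩
      exact h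
  have hinj : ∀ p q, g p = g q ↔ p = q := fun p q => hg.bij.1.eq_iff
  rcases r with _ | _ | _ | κ | j
  · rcases a with p | ⟨p, κ, i⟩
    · simp [rel, mapD, h0]
    · simp [rel, mapD]
  · rcases a with p | ⟨p, κ, i⟩ <;> simp [rel, mapD]
  · rcases a with p | ⟨p, κ, i⟩
    · rcases b with q | ⟨q, κ', i'⟩
      · simp only [rel, mapD, D.nd.injEq]
        constructor
        · rintro ⟨p', k, rfl, h2⟩
          obtain ⟨k', h3, -⟩ := (h1 p q k).1 h2
          exact ⟨p, k', rfl, h3⟩
        · rintro ⟨p', k, rfl, rfl⟩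
          obtain ⟨k', h2⟩ := hg.cons k p
          exact ⟨g p, k', rfl, h2⟩
      · simp [rel, mapD]
    · simp [rel, mapD]
  · rcases a with p | ⟨p, κ', i⟩
    · rcases b with q | ⟨q, κ', i'⟩
      · simp [rel, mapD]
      · simp only [rel, mapD, D.nd.injEq, D.gp.injEq]
        constructor
        · rintro ⟨p', i'', rfl, h2, h3, h4⟩
          exact ⟨p, i', rfl, hg.bij.1 h2, h3, rfl⟩
        · rintro ⟨p', i'', h1, h2, h3, h4⟩
          exact ⟨g p, i', rfl, by rw [h2, h1], h3, rfl⟩
    · simp [rel, mapD]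
  · rcases a with p | ⟨p, κ', i⟩
    · simp [rel, mapD]
    · simp [rel, mapD]

/-- `π` maps `ℕ` to `D` with the prescribed fibres -/
structure Fib (L : List ℤ → Set K) (π : ℕ → D) : Prop where
  nd : ∀ p, ∃! n, π n = .nd p
  gp : ∀ p κ i, {n | π n = .gp p κ (some i)}.Infinite
  inf : ∀ p κ, κ ∈ L p → {n | π n = .gp p κ none}.Infinite
  non : ∀ p κ, κ ∉ L p → ∀ n, π n ≠ .gp p κ none

/-! ### From maps of trees to elementary embeddings -/

lemma mapD_inj {g : List ℤ → List ℤ} (hg : Function.Injective g) :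
    Function.Injective (mapD g) := by
  intro a b h
  cases a <;> cases b <;> simp [mapD] at h ⊢
  · exact hg h
  · exact ⟨hg h.1, h.2⟩

theorem exists_h {L L' : List ℤ → Set K} {π π' : ℕ → D} (h : Fib L π) (h' : Fib L' π')
    {g : List ℤ → List ℤ} (hg : IsAuto g) (hL : ∀ p, L p ⊆ L' (g p)) :
    ∃ H : ℕ → ℕ, Function.Injective H ∧ ∀ n, π' (H n) = mapD g (π n) := by
  refine exists_inj (α := fun n => mapD g (π n)) (β := π') ?_
  rintro q ⟨n, rfl⟩
  rcases hn : π n with p | ⟨p, κ, i⟩
  · right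
    refine ⟨?_, h'.nd (g p)⟩
    obtain ⟨a, ha, hau⟩ := h.nd p
    refine ⟨a, by change mapD g (π a) = _; rw [ha], fun b hb => hau b ?_⟩
    exact mapD_inj hg.bij.1 hb
  · left
    rcases i with _ | i
    · refine h'.inf (g p) κ (hL p ?_)
      by_contra hκ
      exact h.non p κ hκ n hn
    · exact h'.gp (g p) κ i

lemma nd_fibre {L : List ℤ → Set K} {π : ℕ → D} (h : Fib L π) {g : List ℤ → List ℤ} (hg : IsAuto g)
    (J : ℕ) (p : List ℤ) : ∃! n, cap J (mapD g (π n)) = .nd p := by
  obtain ⟨q, rfl⟩ := hg.bij.2 p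
  obtain ⟨a, ha, hau⟩ := h.nd q
  refine ⟨a, by change cap J (mapD g (π a)) = _; rw [ha]; rfl, fun b hb => hau b ?_⟩
  change cap J (mapD g (π b)) = _ at hb
  rcases hn : π b with p | ⟨p, κ, i⟩
  · rw [hn] at hb
    simp only [mapD, cap, D.nd.injEq] at hb
    rw [hg.bij.1 hb]
  · rw [hn] at hb
    simp [mapD, cap] at hb

lemma gp_fibre {L : List ℤ → Set K} {π : ℕ → D} (h : Fib L π) {g : List ℤ → List ℤ} (hg : IsAuto g)
    {J : ℕ} (p : List ℤ) (κ : K) {i : ℕ} (hi : i < J) :
    {n | cap J (mapD g (π n)) = .gp p κ (some i)}.Infinite := by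
  obtain ⟨q, rfl⟩ := hg.bij.2 p
  refine (h.gp q κ i).mono fun n hn => ?_
  change π n = _ at hn
  change cap J (mapD g (π n)) = _
  rw [hn]
  simp [mapD, cap, capO, hi]

lemma gp_fibre_empty {g : List ℤ → List ℤ} {π : ℕ → D}
    {J : ℕ} (p : List ℤ) (κ : K) {i : ℕ} (hi : ¬ i < J) (n : ℕ) :
    cap J (mapD g (π n)) ≠ .gp p κ (some i) := by
  intro h
  rcases hn : π n with p | ⟨p, κ, i'⟩
  · rw [hn] at h; simp [mapD, cap] at h
  · rw [hn] at h
    rcases i' with _ | i'
    · simp [mapD, cap, capO] at h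
    · simp only [mapD, cap, capO, D.gp.injEq] at h
      obtain ⟨-, -, h⟩ := h
      split_ifs at h with h1
      simp only [Option.some.injEq] at h
      omega

lemma none_fibre {L : List ℤ → Set K} {π : ℕ → D} (h : Fib L π) {g : List ℤ → List ℤ}
    (hg : IsAuto g) (J : ℕ) (p : List ℤ) (κ : K) :
    {n | cap J (mapD g (π n)) = .gp p κ none}.Infinite := by
  obtain ⟨q, rfl⟩ := hg.bij.2 p
  refine (h.gp q κ J).mono fun n hn => ?_
  change π n = _ at hn
  change cap J (mapD g (π n)) = _
  rw [hn]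
  simp [mapD, cap, capO]

lemma isAuto_id : IsAuto (fun p : List ℤ => p) :=
  ⟨Function.bijective_id, rfl, fun k _ => ⟨k, rfl⟩⟩

lemma mapD_id (d : D) : mapD (fun p => p) d = d := by cases d <;> rfl

/-- the finite approximations of the embedding -/
theorem exists_F {L L' : List ℤ → Set K} {π π' : ℕ → D} (h : Fib L π) (h' : Fib L' π')
    {g : List ℤ → List ℤ} (hg : IsAuto g) {H : ℕ → ℕ} (hinj : Function.Injective H)
    (hH : ∀ n, π' (H n) = mapD g (π n)) (J : ℕ) {m : ℕ} (x : Fin m → ℕ) :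
    ∃ F : ℕ ≃ ℕ, (∀ r, Low J r → ∀ a b, rel r (π a) (π b) ↔ rel r (π' (F a)) (π' (F b))) ∧
      ∀ k, F (x k) = H (x k) := by
  have hs : ∀ q, Same (fun n => cap J (mapD g (π n)))
      (fun n => cap J (mapD (fun p => p) (π' n))) q := by
    intro q
    rcases q with p | ⟨p, κ, i⟩
    · exact Or.inr (Or.inl ⟨nd_fibre h hg J p, nd_fibre h' isAuto_id J p⟩)
    · rcases i with _ | i
      · exact Or.inl ⟨none_fibre h hg J p κ, none_fibre h' isAuto_id J p κ⟩
      · by_cases hi : i < J
        · exact Or.inl ⟨gp_fibre h hg p κ hi, gp_fibre h' isAuto_id p κ hi⟩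
        · exact Or.inr (Or.inr ⟨gp_fibre_empty p κ hi, gp_fibre_empty p κ hi⟩)
  obtain ⟨F, hF, hx⟩ := exists_bij hs hinj (fun n => by simp only [hH, mapD_id]) x
  refine ⟨F, fun r hr a b => ?_, hx⟩
  rw [← rel_mapD hg, ← rel_cap hr, ← rel_cap hr (π' (F a))]
  have h1 := hF a
  have h2 := hF b
  simp only [mapD_id] at h1 h2
  rw [h1, h2]

/-! ### From maps of structures to maps of trees -/

theorem exists_g {L L' : List ℤ → Set K} {π π' : ℕ → D} (h : Fib L π) (h' : Fib L' π')
    {H : ℕ → ℕ} (hH : ∀ r a b, rel r (π a) (π b) ↔ rel r (π' (H a)) (π' (H b))) :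
    ∃ g : List ℤ → List ℤ, (∀ n p, π n = .nd p → π' (H n) = .nd (g p)) ∧ g [] = [] ∧
      (∀ k p, ∃ k', g (k :: p) = k' :: g p) ∧ (∀ p, L p ⊆ L' (g p)) ∧
      ∀ n p κ i, π n = .gp p κ i → π' (H n) = .gp (g p) κ i := by
  have h1 : ∀ p, ∃ q, ∀ n, π n = .nd p → π' (H n) = .nd q := by
    intro p
    obtain ⟨n, hn, hnu⟩ := h.nd p
    obtain ⟨q, hq⟩ := (hH .node n n).1 ⟨p, hn⟩
    refine ⟨q, fun n' hn' => ?_⟩
    rw [hnu n' hn', hq]
  choose g hg using h1
  have hgp : ∀ n p κ i, π n = .gp p κ i → π' (H n) = .gp (g p) κ i := by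
    intro n p κ i hn
    obtain ⟨m, hm, -⟩ := h.nd p
    have h2 : rel (.att κ) (π m) (π n) := ⟨p, i, hm, hn⟩
    obtain ⟨p', i', h3, h4⟩ := (hH _ _ _).1 h2
    rw [hg p m hm, D.nd.injEq] at h3
    subst h3
    rw [h4]
    congr 1
    have h5 : ∀ j, ge j i ↔ ge j i' := by
      intro j
      have h6 := hH (.lev j) n n
      simp only [rel, hn, h4, D.gp.injEq] at h6
      constructor
      · intro h7
        obtain ⟨_, _, _, ⟨-, -, rfl⟩, h8⟩ := h6.1 ⟨_, _, _, ⟨rfl, rfl, rfl⟩, h7⟩
        exact h8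
      · intro h7
        obtain ⟨_, _, _, ⟨-, -, rfl⟩, h8⟩ := h6.2 ⟨_, _, _, ⟨rfl, rfl, rfl⟩, h7⟩
        exact h8
    rcases i with _ | i <;> rcases i' with _ | i'
    · rfl
    · have := (h5 (i' + 1)).1 trivial
      simp only [ge] at this
      omega
    · have := (h5 (i + 1)).2 trivial
      simp only [ge] at this
      omega
    · have a1 := (h5 i).1 (by simp [ge])
      have a2 := (h5 i').2 (by simp [ge])
      simp only [ge] at a1 a2
      rw [le_antisymm a1 a2]
  refine ⟨g, fun n p hn => hg p n hn, ?_, ?_, ?_, hgp⟩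
  · obtain ⟨n, hn, -⟩ := h.nd []
    have h2 := (hH .root n n).1 hn
    have h3 := hg [] n hn
    rw [h3] at h2
    simpa [rel] using h2
  · intro k p
    obtain ⟨n, hn, -⟩ := h.nd p
    obtain ⟨m, hm, -⟩ := h.nd (k :: p)
    obtain ⟨p', k', h3, h4⟩ := (hH .par n m).1 ⟨p, k, hn, hm⟩
    rw [hg p n hn, D.nd.injEq] at h3
    rw [hg (k :: p) m hm, D.nd.injEq] at h4
    exact ⟨k', by rw [h4, h3]⟩
  · intro p κ hκ
    obtain ⟨n, hn⟩ := (h.inf p κ hκ).nonempty
    by_contra hc
    exact h'.non (g p) κ hc (H n) (hgp n p κ none hn)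

/-- the structure determines the map to `D` up to an automorphism of the tree -/
theorem rigid_of {L L' : List ℤ → Set K} {π π' : ℕ → D} (h : Fib L π) (h' : Fib L' π')
    (hH : ∀ r a b, rel r (π a) (π b) ↔ rel r (π' a) (π' b)) :
    ∃ g : List ℤ → List ℤ, IsAuto g ∧ (∀ n, π' n = mapD g (π n)) ∧ ∀ p, L p = L' (g p) := by
  obtain ⟨g, g1, g2, g3, g4, g5⟩ := exists_g h h' (H := fun n => n) hH
  obtain ⟨g', g1', g2', g3', g4', g5'⟩ := exists_g h' h (H := fun n => n)
    (fun r a b => (hH r a b).symm)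
  have h1 : ∀ p, g' (g p) = p := by
    intro p
    obtain ⟨n, hn, -⟩ := h.nd p
    have h2 := g1' n (g p) (g1 n p hn)
    rw [hn, D.nd.injEq] at h2
    exact h2.symm
  have h2 : ∀ p, g (g' p) = p := by
    intro p
    obtain ⟨n, hn, -⟩ := h'.nd p
    have h2 := g1 n (g' p) (g1' n p hn)
    rw [hn, D.nd.injEq] at h2
    exact h2.symm
  refine ⟨g, ⟨Function.bijective_iff_has_inverse.2 ⟨g', h1, h2⟩, g2, g3⟩, fun n => ?_, fun p => ?_⟩
  · rcases hn : π n with p | ⟨p, κ, i⟩
    · exact g1 n p hn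
    · exact g5 n p κ i hn
  · refine Subset.antisymm (g4 p) ?_
    have := g4' (g p)
    rwa [h1] at this

end Pool.Agent.N618.EE
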